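import Pool.Agent.R877.RN.Stm2

/-! Project RN (helper877), piece HCHAIN by helper780: a nilpotent complement with a chain basis. -/

namespace R877.RN

namespace HCh

lemma range_append {g : Type} {m m' : ℕ} (y : Fin m → g) (z : Fin m' → g) :
    Set.range (Fin.append y z) = Set.range y ∪ Set.range z := by
  ext x
  constructor
  · rintro ⟨i, rfl⟩
    induction i using Fin.addCases with
    | left i => rw [Fin.append_left]; exact Or.inl ⟨i, rfl⟩
    | right i => rw [Fin.append_right]; exact Or.inr ⟨i, rfl⟩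
  · rintro (⟨i, rfl⟩ | ⟨i, rfl⟩)
    · exact ⟨Fin.castAdd m' i, Fin.append_left _ _ _⟩
    · exact ⟨Fin.natAdd m i, Fin.append_right _ _ _⟩

lemma exists_span {g : Type} [AddCommGroup g] [Module ℝ g] [FiniteDimensional ℝ g]
    (F : Submodule ℝ g) : ∃ (m : ℕ) (z : Fin m → g), Submodule.span ℝ (Set.range z) = F := by
  refine ⟨_, fun i => ((Module.finBasis ℝ F i : F) : g), ?_⟩
  have h1 : Set.range (fun i => ((Module.finBasis ℝ F i : F) : g)) =
      F.subtype '' Set.range (Module.finBasis ℝ F) := by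
    rw [← Set.range_comp]; rfl
  rw [h1, ← Submodule.map_span, Module.Basis.span_eq, Submodule.map_top, Submodule.range_subtype]

lemma chain {g : Type} [LieRing g] [LieAlgebra ℝ g] [FiniteDimensional ℝ g]
    (F : ℕ → Submodule ℝ g) (h0 : F 0 = ⊥) (hmono : ∀ s, F s ≤ F (s + 1))
    (hbr : ∀ s, ∀ x ∈ F (s + 1), ∀ y ∈ F (s + 1), ⁅x, y⁆ ∈ F s) (s : ℕ) :
    ∃ (m : ℕ) (y : Fin m → g), Submodule.span ℝ (Set.range y) = F s ∧
      ∀ i j, i < j → ⁅y j, y i⁆ ∈ Submodule.span ℝ (y '' {i' | i' < j}) := by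
  induction s with
  | zero =>
    refine ⟨0, Fin.elim0, ?_, fun i => i.elim0⟩
    rw [h0, Set.range_eq_empty, Submodule.span_empty]
  | succ s ih =>
    obtain ⟨m, y, hy, hyc⟩ := ih
    obtain ⟨m', z, hz⟩ := exists_span (F (s + 1))
    have hspan : Submodule.span ℝ (Set.range (Fin.append y z)) = F (s + 1) := by
      rw [range_append, Submodule.span_union, hy, hz, sup_eq_right]
      exact hmono s
    have hmem : ∀ i, Fin.append y z i ∈ F (s + 1) := by
      intro i
      rw [← hspan]
      exact Submodule.subset_span ⟨i, rfl⟩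
    refine ⟨m + m', Fin.append y z, hspan, ?_⟩
    intro i j hij
    induction j using Fin.addCases with
    | left j =>
      induction i using Fin.addCases with
      | left i =>
        have hlt : i < j := by
          rw [Fin.lt_def] at hij ⊢
          simpa using hij
        have h1 := hyc i j hlt
        rw [Fin.append_left, Fin.append_left]
        refine Submodule.span_mono ?_ h1
        rintro _ ⟨i', hi', rfl⟩
        refine ⟨Fin.castAdd m' i', ?_, Fin.append_left _ _ _⟩
        have hi2 : i' < j := hi'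
        change Fin.castAdd m' i' < Fin.castAdd m' j
        rw [Fin.lt_def] at hi2 ⊢
        simpa using hi2
      | right i =>
        exfalso
        rw [Fin.lt_def] at hij
        simp at hij
        omega
    | right j =>
      have h1 := hbr s _ (hmem (Fin.natAdd m j)) _ (hmem i)
      rw [← hy] at h1
      refine Submodule.span_mono ?_ h1
      rintro _ ⟨i', rfl⟩
      refine ⟨Fin.castAdd m' i', ?_, Fin.append_left _ _ _⟩
      change Fin.castAdd m' i' < Fin.natAdd m j
      rw [Fin.lt_def]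
      simp
      omega

end HCh

open HCh in
theorem p_HCHAIN : P_HCHAIN := by
  intro g _ _ _ n hn
  obtain ⟨x, hx⟩ := LieAlgebra.exists_isCartanSubalgebra_engel ℝ g
  set h : LieSubalgebra ℝ g := LieSubalgebra.engel ℝ x with hh
  have hnil : LieRing.IsNilpotent h := hx.nilpotent
  obtain ⟨k, hk⟩ := (LieModule.isNilpotent_iff_exists_ucs_eq_top ℝ (L := h) (M := h)).mp hnil
  set F : ℕ → Submodule ℝ g := fun s =>
    (((⊥ : LieSubmodule ℝ h h).ucs s).toSubmodule).map h.toSubmodule.subtype with hF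
  have hFk : F k = h.toSubmodule := by
    rw [hF]
    simp only
    rw [hk, LieSubmodule.top_toSubmodule, Submodule.map_top, Submodule.range_subtype]
  have h0 : F 0 = ⊥ := by
    rw [hF]
    simp only
    rw [LieSubmodule.ucs_zero, LieSubmodule.bot_toSubmodule, Submodule.map_bot]
  have hmono : ∀ s, F s ≤ F (s + 1) := by
    intro s
    apply Submodule.map_mono
    rw [LieSubmodule.ucs_succ]
    exact LieSubmodule.le_normalizer _
  have hbr : ∀ s, ∀ x ∈ F (s + 1), ∀ y ∈ F (s + 1), ⁅x, y⁆ ∈ F s := by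
    rintro s _ ⟨x', hx', rfl⟩ _ ⟨y', hy', rfl⟩
    let a : h := x'
    let b : h := y'
    have h1 : b ∈ ((⊥ : LieSubmodule ℝ h h).ucs (s + 1)) := hy'
    rw [LieSubmodule.ucs_succ, LieSubmodule.mem_normalizer] at h1
    exact ⟨(⁅a, b⁆ : h), h1 a, rfl⟩
  obtain ⟨m, y, hy, hyc⟩ := chain F h0 hmono hbr k
  refine ⟨h, m, y, hnil, by rw [hy, hFk], ?_, hyc⟩
  obtain ⟨N, hN1, hN⟩ := ((LinearMap.eventually_isCompl_ker_pow_range_pow
    (LieAlgebra.ad ℝ g x)).and (Filter.eventually_ge_atTop 1)).exists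
  rw [eq_top_iff, ← hN1.sup_eq_top]
  apply sup_le_sup
  · intro w hw
    have hw' : w ∈ h := (LieSubalgebra.mem_engel_iff ℝ x w).mpr ⟨N, hw⟩
    exact hw'
  · rintro _ ⟨w, rfl⟩
    obtain ⟨N', rfl⟩ : ∃ N', N = N' + 1 := ⟨N - 1, by omega⟩
    rw [pow_succ', Module.End.mul_apply, LieAlgebra.ad_apply]
    exact hn _ _

end R877.RN
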